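import Pool.Agent.CRA.A3

set_option autoImplicit false
open MeasureTheory

namespace Pool.Agent.Results.MP_068041_gt.AnalyticAnnuli

/-- (1) Every set `U` of directions that determines convex bodies determines the convex annuli `K \ interior P`
whose outer body `K` has a real analytic boundary, and, more generally, the bodies `K` with real analytic boundary
from the X-rays of `K \ P`, where the hole `P` is an arbitrary set with closure in the interior of `K`; there are
finite such sets `U`.
(2) For every `δ > 0` there is a finite set `U` of directions such that a convex body `K` is determined by the X-rays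
of `K \ P` in the directions of `U`, for all convex bodies `K` and all sets (holes) `P` at relative depth at least
`δ`. -/
theorem result :
    (∀ U : Set (EuclideanSpace ℝ (Fin 2)), (∀ u ∈ U, u ≠ 0) →
      Pool.Agent.CRA.DeterminesBodies U →
      (∀ K P L Q : Set (EuclideanSpace ℝ (Fin 2)),
        Pool.Agent.CRN.Annulus K P → Pool.Agent.CRN.Annulus L Q →
        Pool.Agent.CRA.AnalyticBoundary K → Pool.Agent.CRA.AnalyticBoundary L →
        (∀ u ∈ U, Pool.Agent.CRN.SameXray (K \ interior P) (L \ interior Q) u) →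
        K = L ∧ P = Q) ∧
      (∀ K P L Q : Set (EuclideanSpace ℝ (Fin 2)),
        IsCompact K → Convex ℝ K → (interior K).Nonempty →
        IsCompact L → Convex ℝ L → (interior L).Nonempty →
        Pool.Agent.CRA.AnalyticBoundary K → Pool.Agent.CRA.AnalyticBoundary L →
        closure P ⊆ interior K → closure Q ⊆ interior L →
        (∀ u ∈ U, Pool.Agent.CRN.SameXray (K \ P) (L \ Q) u) → K = L)) ∧
    (∃ U : Finset (EuclideanSpace ℝ (Fin 2)), (∀ u ∈ U, u ≠ 0) ∧
      Pool.Agent.CRA.DeterminesBodies (U : Set (EuclideanSpace ℝ (Fin 2)))) ∧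
    ∀ δ : ℝ, 0 < δ → ∃ U : Finset (EuclideanSpace ℝ (Fin 2)), (∀ u ∈ U, u ≠ 0) ∧
      ∀ K L P Q : Set (EuclideanSpace ℝ (Fin 2)),
        IsCompact K → Convex ℝ K → (interior K).Nonempty →
        IsCompact L → Convex ℝ L → (interior L).Nonempty →
        (∀ x ∈ P, Metric.closedBall x (δ * Metric.diam K) ⊆ K) →
        (∀ x ∈ Q, Metric.closedBall x (δ * Metric.diam L) ⊆ L) →
        (∀ u ∈ U, Pool.Agent.CRN.SameXray (K \ P) (L \ Q) u) → K = L := by
  refine ⟨fun U hU0 hU => ⟨?_, ?_⟩, Pool.Agent.CRA.exists_determining, ?_⟩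
  · intro K P L Q hA hB aK aL hX
    exact Pool.Agent.CRA.annuli_analytic hU0 hU hA hB aK aL hX
  · intro K P L Q k1 k2 k3 l1 l2 l3 aK aL hP hQ hX
    exact Pool.Agent.CRA.outer_analytic hU0 hU k1 k2 k3 l1 l2 l3 aK aL hP hQ hX
  · intro δ hδ
    obtain ⟨U, hU0, hU1, -⟩ := Pool.Agent.XA.mainU δ hδ
    exact ⟨U, hU0, fun K L P Q k1 k2 k3 l1 l2 l3 hP hQ hX =>
      hU1 K L P Q k1 k2 k3 l1 l2 l3 hP hQ fun u hu x => hX u hu x⟩

end Pool.Agent.Results.MP_068041_gt.AnalyticAnnuli
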