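import Pool.Agent.CRN.E1

set_option autoImplicit false
open MeasureTheory

namespace Pool.Agent.Results.MP_068041_gt.CorneredAnnuli

/-- For all `η > 0` and `N` there is a finite set `U` of directions of the plane that determines every convex
annulus `K \ interior P` with corners (`Pool.Agent.CRN.Cornered η N K P`) among all convex annuli
`L \ interior Q`. -/
theorem result :
    ∀ (η : ℝ) (N : ℕ), 0 < η → ∃ U : Finset (EuclideanSpace ℝ (Fin 2)), (∀ u ∈ U, u ≠ 0) ∧
      ∀ K P L Q : Set (EuclideanSpace ℝ (Fin 2)),
        Pool.Agent.CRN.Annulus K P → Pool.Agent.CRN.Annulus L Q →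
        Pool.Agent.CRN.Cornered η N K P →
        (∀ u ∈ U, Pool.Agent.CRN.SameXray (K \ interior P) (L \ interior Q) u) →
        K = L ∧ P = Q :=
  fun η N hη => Pool.Agent.CRN.main η N hη

end Pool.Agent.Results.MP_068041_gt.CorneredAnnuli
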