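import Pool.Agent.CRS.S10

set_option autoImplicit false
open MeasureTheory

namespace Pool.Agent.Results.MP_068041_gt.LocalThick

/-- For every `δ > 0` there is a finite set `U` of directions of the plane that determines every convex annulus
`K \ interior P` with a `δ`-spot of arbitrary size (`Pool.Agent.CRS.Spot δ K P`) among all convex annuli
`L \ interior Q`. -/
theorem result :
    ∀ δ : ℝ, 0 < δ → ∃ U : Finset (EuclideanSpace ℝ (Fin 2)), (∀ u ∈ U, u ≠ 0) ∧
      ∀ K P L Q : Set (EuclideanSpace ℝ (Fin 2)),
        Pool.Agent.CRN.Annulus K P → Pool.Agent.CRN.Annulus L Q →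
        Pool.Agent.CRS.Spot δ K P →
        (∀ u ∈ U, Pool.Agent.CRN.SameXray (K \ interior P) (L \ interior Q) u) →
        K = L ∧ P = Q :=
  fun δ hδ => Pool.Agent.CRS.main δ hδ

end Pool.Agent.Results.MP_068041_gt.LocalThick
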