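import Pool.Agent.XA.Z5

set_option autoImplicit false
open MeasureTheory

namespace Pool.Agent.Results.MP_068041_gt.ThickAnnuli

/-- For every `δ > 0` there is a finite set `U` of directions of the plane such that two convex annuli
`K₁ \ interior K₂`, `L₁ \ interior L₂` with the same X-rays in the directions of `U` are equal if `K₂` has
relative depth at least `δ` in `K₁` (the closed balls of radius `δ * diam K₁` around the points of `K₂` are
contained in `K₁`) and, moreover, `L₂` has relative depth at least `δ` in `L₁` or `K₂` contains a closed disc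
of radius `δ * diam K₁` (then `L₁`, `L₂` are arbitrary). -/
theorem result :
    ∀ δ : ℝ, 0 < δ → ∃ U : Finset (EuclideanSpace ℝ (Fin 2)), (∀ u ∈ U, u ≠ 0) ∧
      ∀ K₁ K₂ L₁ L₂ : Set (EuclideanSpace ℝ (Fin 2)),
        IsCompact K₁ → Convex ℝ K₁ → (interior K₁).Nonempty →
        IsCompact K₂ → Convex ℝ K₂ → (interior K₂).Nonempty →
        IsCompact L₁ → Convex ℝ L₁ → (interior L₁).Nonempty →
        IsCompact L₂ → Convex ℝ L₂ → (interior L₂).Nonempty →
        (∀ x ∈ K₂, Metric.closedBall x (δ * Metric.diam K₁) ⊆ K₁) →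
        L₂ ⊆ interior L₁ →
        ((∀ x ∈ L₂, Metric.closedBall x (δ * Metric.diam L₁) ⊆ L₁) ∨
          (∃ x, Metric.closedBall x (δ * Metric.diam K₁) ⊆ K₂)) →
        (∀ u ∈ U, ∀ x : EuclideanSpace ℝ (Fin 2),
          volume {t : ℝ | x + t • u ∈ K₁ \ interior K₂} =
            volume {t : ℝ | x + t • u ∈ L₁ \ interior L₂}) →
        K₁ = L₁ ∧ K₂ = L₂ := by
  intro δ hδ
  obtain ⟨U, hU0, -, hU2⟩ := Pool.Agent.XA.mainU δ hδ
  exact ⟨U, hU0, hU2⟩

end Pool.Agent.Results.MP_068041_gt.ThickAnnuli
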